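import Pool.Agent.H238.HF.MAsm
import Pool.Agent.H238.HF.KFin

/-!
# MP_6bf31b_an: the discrete Moebius energy of hexagons has no minimiser in the trefoil class

`P0` is the hexagon `(-1,0,3), (2,0,-3), (0,2,3), (0,-1,-3), (2,-1,3), (-1,2,-3)` (a trefoil), `Q0` the regular
plane hexagon. The last part is the negative answer to Q1 for `m = 6` and the knot type of `P0`.
-/

open Set Pool.Agent.H223.MB Pool.Agent.H238.HK

namespace Pool.Agent.Results.MP_6bf31b_an.NoMinimisingHexagon

theorem result :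
    (∀ p : Fin 6 → V, Function.Injective p → IsLocalMin energy p →
      EuclideanGeometry.Concyclic (range p) ∨ Collinear ℝ (range p)) ∧
    (∀ p : Fin 6 → V, Embedded p →
      (∀ q : Fin 6 → V, Embedded q → AmbientIsotopic (trace p) (trace q) → energy p ≤ energy q) →
      EuclideanGeometry.Concyclic (range p) ∧ AmbientIsotopic (trace p) (trace Q0)) ∧
    (Embedded P0 ∧ ¬ AmbientIsotopic (trace P0) (trace Q0)) ∧
    (∀ q : Fin 6 → V, Embedded q → AmbientIsotopic (trace P0) (trace q) →
      ∃ r : Fin 6 → V, Embedded r ∧ AmbientIsotopic (trace P0) (trace r) ∧ energy r < energy q) :=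
  ⟨asm1, fun p hp h => ⟨asm2 p hp h, concyclic_unknot p hp (asm2 p hp h)⟩, ⟨emb, knot⟩, fun q hq h => by
    obtain ⟨r, hr, h2, h3⟩ := fin3 q hq h
    exact ⟨r, hr, pAI.2.1 _ _ _ h h2, h3⟩⟩

end Pool.Agent.Results.MP_6bf31b_an.NoMinimisingHexagon
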